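import Pool.Agent.H369.CFG.Stm

/-!
# Cardinalities, and the embedding of `LaurentSeries F` in the complex numbers
-/

set_option autoImplicit false

namespace Pool.Agent.H233.CFG

open Cardinal Pool.Agent.H369.TH Pool.Agent.H369.CFG

theorem mk_fun_le (I R : Type) [Countable I] (h : #R ≤ 𝔠) : #(I → R) ≤ 𝔠 := by
  rw [← power_def]
  refine (power_le_power_right h).trans ?_
  refine (power_le_power_left continuum_ne_zero (mk_le_aleph0 (α := I))).trans ?_
  rw [continuum_power_aleph0]

theorem mk_hahn_le (Γ R : Type) [PartialOrder Γ] [Zero R] [Countable Γ] (h : #R ≤ 𝔠) :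
    #(HahnSeries Γ R) ≤ 𝔠 := by
  have h1 : Function.Injective (fun x : HahnSeries Γ R => (x.coeff : Γ → R)) :=
    HahnSeries.coeff_injective
  exact (mk_le_of_injective h1).trans (mk_fun_le Γ R h)

theorem mk_power_le (R : Type) [Semiring R] (h : #R ≤ 𝔠) : #(PowerSeries R) ≤ 𝔠 := by
  have h1 : Function.Injective
      (fun (x : PowerSeries R) (n : ℕ) => PowerSeries.coeff n x) := by
    intro x y hxy
    ext n
    exact congrFun hxy n
  exact (mk_le_of_injective h1).trans (mk_fun_le ℕ R h)

theorem mk_frac_le (R : Type) [CommRing R] [IsDomain R] (h : #R ≤ 𝔠) :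
    #(FractionRing R) ≤ 𝔠 := by
  have h1 : Function.Surjective (fun x : R × R =>
      algebraMap R (FractionRing R) x.1 / algebraMap R (FractionRing R) x.2) := by
    intro z
    obtain ⟨a, b, -, hz⟩ := IsFractionRing.div_surjective (A := R) z
    exact ⟨(a, b), hz⟩
  refine (mk_le_of_surjective h1).trans ?_
  rw [mk_prod, lift_id]
  refine (mul_le_mul' h h).trans ?_
  rw [continuum_mul_self]

theorem mk_closure_le (k : Type) [Field k] (h : #k ≤ 𝔠) : #(AlgebraicClosure k) ≤ 𝔠 :=
  (Algebra.IsAlgebraic.cardinalMk_le_max k (AlgebraicClosure k)).trans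
    (max_le h aleph0_le_continuum)

theorem card : S_card := by
  intro Γ K _ _ _ _ _ hK
  exact mk_closure_le _ (mk_frac_le _ (mk_power_le _ (mk_power_le _ (mk_hahn_le Γ K hK))))

theorem continuum_le_laurent (F : Type) [Field F] : 𝔠 ≤ #(LaurentSeries F) := by
  classical
  have h1 : Function.Injective (fun s : Set ℕ =>
      ((PowerSeries.mk fun n => if n ∈ s then (1 : F) else 0 : PowerSeries F) :
        LaurentSeries F)) := by
    intro s t hst
    have h2 : (PowerSeries.mk fun n => if n ∈ s then (1 : F) else 0) =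
        PowerSeries.mk fun n => if n ∈ t then (1 : F) else 0 :=
      HahnSeries.ofPowerSeries_injective hst
    ext n
    have h3 := congrArg (PowerSeries.coeff n) h2
    rw [PowerSeries.coeff_mk, PowerSeries.coeff_mk] at h3
    by_cases hs : n ∈ s
    · by_cases ht : n ∈ t
      · exact ⟨fun _ => ht, fun _ => hs⟩
      · rw [if_pos hs, if_neg ht] at h3
        exact absurd h3 one_ne_zero
    · by_cases ht : n ∈ t
      · rw [if_neg hs, if_pos ht] at h3
        exact absurd h3 zero_ne_one
      · exact ⟨fun h => absurd h hs, fun h => absurd h ht⟩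
  have h2 := mk_le_of_injective h1
  rwa [mk_set, mk_nat, two_power_aleph0] at h2

theorem alg : S_alg := by
  intro F _ _ hF
  have c1 : #(LaurentSeries F) ≤ 𝔠 := mk_hahn_le ℤ F hF
  have c2 : #(AlgebraicClosure (LaurentSeries F)) = 𝔠 := by
    refine le_antisymm (mk_closure_le _ c1) ((continuum_le_laurent F).trans ?_)
    exact mk_le_of_injective (f := algebraMap (LaurentSeries F)
      (AlgebraicClosure (LaurentSeries F)))
      (algebraMap (LaurentSeries F) (AlgebraicClosure (LaurentSeries F))).injective
  have z1 : CharZero (LaurentSeries F) :=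
    charZero_of_injective_ringHom (f := (HahnSeries.C : F →+* LaurentSeries F))
      HahnSeries.C_injective
  have z2 : CharZero (AlgebraicClosure (LaurentSeries F)) :=
    charZero_of_injective_algebraMap
      (algebraMap (LaurentSeries F) (AlgebraicClosure (LaurentSeries F))).injective
  obtain ⟨e⟩ := IsAlgClosed.ringEquiv_of_equiv_of_charZero
    (K := AlgebraicClosure (LaurentSeries F)) (L := ℂ)
    (by rw [c2]; exact aleph0_lt_continuum)
    (by
      have h : #(AlgebraicClosure (LaurentSeries F)) = #ℂ := by rw [c2, mk_complex]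
      exact Cardinal.eq.1 h)
  let : Algebra (LaurentSeries F) ℂ :=
    ((e : AlgebraicClosure (LaurentSeries F) →+* ℂ).comp
      (algebraMap (LaurentSeries F) (AlgebraicClosure (LaurentSeries F)))).toAlgebra
  refine ⟨this, ?_⟩
  let e' : AlgebraicClosure (LaurentSeries F) →ₐ[LaurentSeries F] ℂ :=
    { (e : AlgebraicClosure (LaurentSeries F) →+* ℂ) with commutes' := fun _ => rfl }
  refine ⟨fun z => ?_⟩
  have h := (Algebra.IsAlgebraic.isAlgebraic (R := LaurentSeries F) (e.symm z)).algHom e'
  have h2 : e' (e.symm z) = z := e.apply_symm_apply z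
  rwa [h2] at h

end Pool.Agent.H233.CFG
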